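import Pool.Agent.T4h92.BW.Stm

/-!
# Subset construction
-/

set_option autoImplicit false

namespace Pool.Agent.T4h92.BW

open Finset
open scoped Classical Pointwise

theorem mem_mulF {A B : Finset ℕ} {x : ℕ} : x ∈ mulF A B ↔ ∃ a ∈ A, ∃ b ∈ B, a * b = x := by
  unfold mulF
  simp only [Finset.mem_image, Finset.mem_product, Prod.exists]
  constructor
  · rintro ⟨a, b, ⟨ha, hb⟩, rfl⟩
    exact ⟨a, ha, b, hb, rfl⟩
  · rintro ⟨a, ha, b, hb, rfl⟩
    exact ⟨a, b, ⟨ha, hb⟩, rfl⟩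

theorem det : T_DET := by
  intro w k K L A h
  induction h with
  | leaf X A hX hA =>
    refine ⟨Prog.leaf fun S => X.filter fun x => (univ.filter fun i => x ∈ A i) = S, ⟨⟨X, hX, ?_⟩, ?_⟩, ?_, ?_⟩
    · intro x hx
      obtain ⟨S, _, hS⟩ := Finset.mem_biUnion.1 hx
      exact (Finset.mem_filter.1 hS).1
    · intro c c' hcc
      rw [Finset.disjoint_left]
      intro x hx hx'
      exact hcc ((Finset.mem_filter.1 hx).2.symm.trans (Finset.mem_filter.1 hx').2)
    · intro x hx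
      obtain ⟨S, _, hS⟩ := Finset.mem_biUnion.1 hx
      exact (Finset.mem_filter.1 hS).1
    · intro i
      ext x
      simp only [Prog.val, Finset.mem_biUnion, Finset.mem_filter, Finset.mem_univ, true_and]
      constructor
      · intro hx
        exact ⟨univ.filter fun i => x ∈ A i, by simp [hx], hA i hx, rfl⟩
      · rintro ⟨S, hi, _, rfl⟩
        simpa using hi
  | node L L' A B C R _ _ hco hC ih1 ih2 =>
    obtain ⟨P1, ok1, l1, e1⟩ := ih1
    obtain ⟨P2, ok2, l2, e2⟩ := ih2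
    refine ⟨Prog.node P1 P2 fun S T => univ.filter fun i => ∃ p ∈ R i, p.1 ∈ S ∧ p.2 ∈ T,
      ⟨ok1, ok2, fun a ha b hb => hco a (l1 ha) b (l2 hb)⟩, Finset.union_subset_union l1 l2, ?_⟩
    intro i
    ext x
    rw [hC i]
    simp only [Prog.val, Finset.mem_biUnion, Finset.mem_filter, Finset.mem_univ, true_and, Prod.exists, mem_mulF]
    constructor
    · rintro ⟨p, q, hpq, a, ha, b, hb, rfl⟩
      rw [e1 p] at ha
      rw [e2 q] at hb
      obtain ⟨S, hS, ha'⟩ := Finset.mem_biUnion.1 ha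
      obtain ⟨T, hT, hb'⟩ := Finset.mem_biUnion.1 hb
      refine ⟨_, ?_, S, T, rfl, a, ha', b, hb', rfl⟩
      exact Finset.mem_filter.2 ⟨Finset.mem_univ _, p, q, hpq, (Finset.mem_filter.1 hS).2,
        (Finset.mem_filter.1 hT).2⟩
    · rintro ⟨c, hi, S, T, rfl, a, ha, b, hb, rfl⟩
      obtain ⟨p, q, hp, hS, hT⟩ := (Finset.mem_filter.1 hi).2
      refine ⟨p, q, hp, a, ?_, b, ?_, rfl⟩
      · rw [e1 p]
        exact Finset.mem_biUnion.2 ⟨S, by simp [hS], ha⟩
      · rw [e2 q]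
        exact Finset.mem_biUnion.2 ⟨T, by simp [hT], hb⟩

end Pool.Agent.T4h92.BW
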