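import Pool.Agent.T4h92.BW.Stm
import Pool.Agent.T2h42.Lat.Gen

/-!
# The final form
-/

set_option autoImplicit false

namespace Pool.Agent.T4h92.BW

open Finset
open scoped Classical Pointwise

namespace FINS

/-- a popular class -/
theorem exists_class {κ : Type} [Fintype κ] (S : Finset κ) (X : κ → Finset ℕ) (F : Finset ℕ)
    (hF : F = S.biUnion X) (hne : F.Nonempty) :
    ∃ c ∈ S, (F.card : ℝ) ≤ Fintype.card κ * (X c).card := by
  by_contra hcon
  push Not at hcon
  have hSne : S.Nonempty := by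
    rw [Finset.nonempty_iff_ne_empty]
    rintro rfl
    rw [hF] at hne
    simp at hne
  have h1 : (F.card : ℝ) ≤ ∑ c ∈ S, ((X c).card : ℝ) := by
    rw [hF]
    exact_mod_cast Finset.card_biUnion_le
  have h2 : (S.card : ℝ) ≤ Fintype.card κ := by exact_mod_cast Finset.card_le_univ S
  have h3 : Fintype.card κ * ∑ c ∈ S, ((X c).card : ℝ) < S.card * (F.card : ℝ) := by
    rw [Finset.mul_sum, ← nsmul_eq_mul, ← Finset.sum_const]
    exact Finset.sum_lt_sum_of_nonempty hSne hcon
  have h4 : (0 : ℝ) < F.card := by exact_mod_cast hne.card_pos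
  have h5 : (S.card : ℝ) * F.card ≤ Fintype.card κ * F.card := by gcongr
  have h6 : (Fintype.card κ : ℝ) * F.card ≤ Fintype.card κ * ∑ c ∈ S, ((X c).card : ℝ) := by gcongr
  linarith

/-- a rich box -/
theorem exists_box {ι : Type} [Fintype ι] (m T : ι → ℝ) (hm : ∀ b, 0 ≤ m b) {Z τ b0 : ℝ}
    (hmZ : ∑ b, m b = Z) (hτ : 0 < τ) (hZ : 0 < Z) (hTb : ∀ b, T b ≤ b0) (hb0 : 0 < b0)
    (hT : ∑ b, m b * T b = τ * Z) :
    ∃ b, τ / 2 ≤ T b ∧ τ / 2 * Z / (b0 * Fintype.card ι) ≤ m b ∧ 0 < m b := by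
  have hne : (Finset.univ.filter fun b => τ / 2 ≤ T b).Nonempty := by
    by_contra hcon
    rw [Finset.not_nonempty_iff_eq_empty] at hcon
    have h1 : ∀ b, T b ≤ τ / 2 := fun b => by
      by_contra h
      have : b ∈ (Finset.univ.filter fun b => τ / 2 ≤ T b) := by
        simp only [Finset.mem_filter, Finset.mem_univ, true_and]
        push Not at h
        exact h.le
      rw [hcon] at this
      simp at this
    have h2 : ∑ b, m b * T b ≤ τ / 2 * Z := by
      rw [← hmZ, Finset.mul_sum]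
      refine Finset.sum_le_sum fun b _ => ?_
      rw [mul_comm]
      exact mul_le_mul_of_nonneg_right (h1 b) (hm b)
    rw [hT] at h2
    have : 0 < τ * Z := mul_pos hτ hZ
    linarith
  have hsum : τ / 2 * Z / b0 ≤ ∑ b ∈ Finset.univ.filter (fun b => τ / 2 ≤ T b), m b := by
    rw [div_le_iff₀ hb0]
    have h1 := Finset.sum_filter_add_sum_filter_not Finset.univ (fun b => τ / 2 ≤ T b) (fun b => m b * T b)
    rw [hT] at h1
    have h2 : ∑ b ∈ Finset.univ.filter (fun b => ¬ τ / 2 ≤ T b), m b * T b ≤ τ / 2 * Z := by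
      calc ∑ b ∈ Finset.univ.filter (fun b => ¬ τ / 2 ≤ T b), m b * T b
          ≤ ∑ b ∈ Finset.univ.filter (fun b => ¬ τ / 2 ≤ T b), m b * (τ / 2) := by
            refine Finset.sum_le_sum fun b hb => ?_
            have := (Finset.mem_filter.1 hb).2
            push Not at this
            exact mul_le_mul_of_nonneg_left this.le (hm b)
        _ ≤ ∑ b, m b * (τ / 2) := Finset.sum_le_sum_of_subset_of_nonneg (Finset.filter_subset _ _)
            fun b _ _ => mul_nonneg (hm b) (by positivity)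
        _ = τ / 2 * Z := by rw [← Finset.sum_mul, hmZ, mul_comm]
    have h3 : ∑ b ∈ Finset.univ.filter (fun b => τ / 2 ≤ T b), m b * T b ≤
        (∑ b ∈ Finset.univ.filter (fun b => τ / 2 ≤ T b), m b) * b0 := by
      rw [Finset.sum_mul]
      exact Finset.sum_le_sum fun b _ => mul_le_mul_of_nonneg_left (hTb b) (hm b)
    linarith
  by_contra hcon
  push Not at hcon
  have hι : (0 : ℝ) < Fintype.card ι := by
    obtain ⟨b, _⟩ := hne
    exact_mod_cast Fintype.card_pos_iff.2 ⟨b⟩
  have hq : 0 < τ / 2 * Z / (b0 * Fintype.card ι) := by positivity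
  have h1 : ∀ b ∈ Finset.univ.filter (fun b => τ / 2 ≤ T b), m b < τ / 2 * Z / (b0 * Fintype.card ι) := by
    intro b hb
    by_contra h
    push Not at h
    have := hcon b (Finset.mem_filter.1 hb).2 h
    linarith
  have h2 : ∑ b ∈ Finset.univ.filter (fun b => τ / 2 ≤ T b), m b <
      ∑ _b ∈ Finset.univ.filter (fun b => τ / 2 ≤ T b), τ / 2 * Z / (b0 * Fintype.card ι) :=
    Finset.sum_lt_sum_of_nonempty hne h1
  rw [Finset.sum_const, nsmul_eq_mul] at h2
  have h3 : ((Finset.univ.filter fun b => τ / 2 ≤ T b).card : ℝ) * (τ / 2 * Z / (b0 * Fintype.card ι)) ≤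
      Fintype.card ι * (τ / 2 * Z / (b0 * Fintype.card ι)) := by
    apply mul_le_mul_of_nonneg_right _ hq.le
    exact_mod_cast Finset.card_le_univ _
  have h4 : Fintype.card ι * (τ / 2 * Z / (b0 * Fintype.card ι)) = τ / 2 * Z / b0 := by
    field_simp
  linarith

theorem num1 {b H M l e : ℝ} (hM : 0 < M) (hb : b ≤ 2 * H / M + 1) (hl : 0 ≤ l) (hH : 0 ≤ H)
    (hML : 8 * l ≤ e * M) : b * l ≤ e / 4 * H + l := by
  have h1 : 2 * l / M ≤ e / 4 := by
    rw [div_le_iff₀ hM]
    linarith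
  calc b * l ≤ (2 * H / M + 1) * l := mul_le_mul_of_nonneg_right hb hl
    _ = (2 * l / M) * H + l := by ring
    _ ≤ e / 4 * H + l := by
        have := mul_le_mul_of_nonneg_right h1 hH
        linarith

theorem num2 {τ H Z I : ℝ} (hH : 0 < H) (hI : 0 < I) : τ / 2 * Z / (3 * H * I) = (τ / H) / 6 * Z / I := by
  field_simp
  ring

theorem num3 {τ θ H Z I : ℝ} (hH : 0 < H) (hI : 0 < I) (hZ : 0 < Z) (h : θ * H ≤ τ) :
    θ / 6 * Z / I ≤ τ / 2 * Z / (3 * H * I) := by
  rw [num2 hH hI]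
  have h1 : θ ≤ τ / H := by
    rw [le_div_iff₀ hH]
    exact h
  gcongr

theorem num4 {k M1 e : ℝ} (hk : 1 ≤ k) (hM : 0 < M1) : 2 * k ^ 2 * M1 * (e / (4 * k ^ 2 * M1)) = e / 2 := by
  have : k ≠ 0 := by linarith
  field_simp
  ring

/-- the dichotomy for one class of a deterministic program -/
theorem dich (hdec : T_DEC) (hpr : T_PR) (hdp : T_DP) (k K w : ℕ) (hk : 1 ≤ k) {e1 : ℝ} (he0 : 0 < e1) (he1 : e1 < 1) :
    ∃ C : ℝ, 0 ≤ C ∧ ∀ p : Prog (Finset (Fin w)), p.Ok (fun X => ∃ Y, Adm k K Y ∧ X ⊆ Y) → ∀ c₀,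
      (p.val c₀).Nonempty →
      (k - e1) * Real.log (p.val c₀).card - C ≤
        Real.log (((Fintype.piFinset fun _ : Fin k => p.val c₀).image fun f => ∏ i, f i).card : ℝ) ∨
      ∀ B : Finset ℤ, B.Nonempty →
        (1 - e1) * (Real.log (p.val c₀).card + Real.log B.card) - C ≤
          Real.log ((((p.val c₀).image fun a : ℕ => (a : ℤ)) + B).card : ℝ) := by
  have hk1 : (1 : ℝ) ≤ k := by exact_mod_cast hk
  obtain ⟨κ, hκ⟩ : ∃ κ : ℝ, κ = Fintype.card (Finset (Fin w)) := ⟨_, rfl⟩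
  have hκ1 : 1 ≤ κ := by
    rw [hκ]
    exact_mod_cast Fintype.card_pos_iff.2 ⟨(∅ : Finset (Fin w))⟩
  obtain ⟨K', hK'⟩ : ∃ K' : ℕ, K' = max K 1 := ⟨_, rfl⟩
  have hKK : K ≤ K' := by rw [hK']; exact le_max_left _ _
  have hK1 : 1 ≤ K' := by rw [hK']; exact le_max_right _ _
  have hK1r : (1 : ℝ) ≤ K' := by exact_mod_cast hK1
  obtain ⟨Lk, hLk⟩ : ∃ Lk : ℝ, Lk = k * Real.log κ + Real.log K' := ⟨_, rfl⟩
  have hlκ : 0 ≤ Real.log κ := Real.log_nonneg hκ1
  have hlK : 0 ≤ Real.log (K' : ℝ) := Real.log_nonneg hK1r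
  have hLk0 : 0 ≤ Lk := by rw [hLk]; positivity
  have hlκL : Real.log κ ≤ Lk := by rw [hLk]; nlinarith
  obtain ⟨M, hM⟩ : ∃ M : ℝ, M = 1 + 8 * Lk / e1 := ⟨_, rfl⟩
  have hM1 : 1 ≤ M := by
    rw [hM]
    have : 0 ≤ 8 * Lk / e1 := by positivity
    linarith
  have hM0 : 0 < M := by linarith
  have hML : 8 * Lk ≤ e1 * M := by
    rw [hM, mul_add, mul_one, mul_div_cancel₀ _ he0.ne']
    linarith
  obtain ⟨M1, hM1e⟩ : ∃ M1 : ℝ, M1 = M + 2 * Real.log κ := ⟨_, rfl⟩
  have hM10 : 0 < M1 := by rw [hM1e]; positivity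
  obtain ⟨θ, hθ⟩ : ∃ θ : ℝ, θ = e1 / (4 * k ^ 2 * M1) := ⟨_, rfl⟩
  have hθ0 : 0 < θ := by rw [hθ]; positivity
  have hθM : 2 * k ^ 2 * M1 * θ = e1 / 2 := by rw [hθ]; exact num4 hk1 hM10
  obtain ⟨C0, hC0⟩ : ∃ C0 : ℝ, C0 = Real.log κ + |Real.log (θ / 6)| := ⟨_, rfl⟩
  have hC00 : 0 ≤ C0 := by rw [hC0]; positivity
  obtain ⟨Cd, hCd0, hCd⟩ := hdp (e1 / 4) (θ / 2) C0 (by positivity) (by positivity) hC00
  refine ⟨max (max (Real.log 2 + Lk) 1) Cd, le_max_of_le_right hCd0, ?_⟩
  intro p hp c₀ hne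
  obtain ⟨A, hA⟩ : ∃ A : Finset ℕ, A = p.val c₀ := ⟨_, rfl⟩
  obtain ⟨J, ι, _, _, W, Ja, hι, hJ, hpos, hco, hmem, hcard, hja, hjn⟩ :=
    hdec (Finset (Fin w)) (fun X => ∃ Y, Adm k K Y ∧ X ⊆ Y) (fun X ⟨Y, hY, hXY⟩ x hx => hY.1 x (hXY hx)) p hp M hM0
      c₀ hne
  rw [← hA] at hne hJ hmem hcard hja ⊢
  rw [← hκ] at hja
  have hApos : (0 : ℝ) < A.card := by exact_mod_cast hne.card_pos
  obtain ⟨H, hH⟩ : ∃ H : ℝ, H = Real.log A.card := ⟨_, rfl⟩
  have hH0 : 0 ≤ H := by rw [hH]; exact Real.log_natCast_nonneg _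
  obtain ⟨m, hm⟩ : ∃ m : ι → ℝ, m = fun β => ∏ j, ((W β j).card : ℝ) := ⟨_, rfl⟩
  have hm0 : ∀ b, 0 ≤ m b := fun b => by rw [hm]; exact Finset.prod_nonneg fun j _ => by positivity
  have hmZ : ∑ b, m b = (A.card : ℝ) := by rw [hm, hcard]
  obtain ⟨T, hT⟩ : ∃ T : ι → ℝ, T = fun β => ((Ja.filter fun j => 2 ≤ (W β j).card).card : ℝ) := ⟨_, rfl⟩
  obtain ⟨τ, hτ⟩ : ∃ τ : ℝ, τ = (∑ b, m b * T b) / A.card := ⟨_, rfl⟩
  have hτA : ∑ b, m b * T b = τ * A.card := by rw [hτ]; field_simp
  have hιn : Nonempty ι := by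
    by_contra h
    rw [not_nonempty_iff] at h
    rw [hcard, Finset.univ_eq_empty, Finset.sum_empty] at hApos
    exact lt_irrefl _ hApos
  have hι0 : (0 : ℝ) < Fintype.card ι := by exact_mod_cast Fintype.card_pos
  have hlι : Real.log (Fintype.card ι) ≤ Fintype.card J * Real.log κ := by
    rw [← Real.log_pow]
    apply Real.log_le_log hι0
    rw [hκ]
    exact_mod_cast hι
  rw [← hH] at hJ ⊢
  have hJ' : (Fintype.card J : ℝ) * Lk ≤ e1 / 4 * H + Lk := num1 hM0 hJ hLk0 hH0 hML
  by_cases hcase : τ ≤ θ * H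
  · left
    have hP := hpr k K' hk hK1 A hne J ι W Ja hpos hco hmem hcard M1 τ hM10.le
      (fun j hj => by rw [hM1e]; exact hja j hj)
      (fun j hj u => by
        obtain ⟨X, ⟨Y, hY, hXY⟩, hWX⟩ := hjn j hj
        refine le_trans (Finset.card_le_card (Finset.filter_subset_filter _ ?_)) ((hY.2 u).trans hKK)
        intro f hf
        rw [Fintype.mem_piFinset] at hf ⊢
        intro i
        obtain ⟨β, _, hβ⟩ := Finset.mem_biUnion.1 (hf i)
        exact hXY (hWX β hβ))
      (by rw [← hτA, hm, hT])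
    obtain ⟨P, hPd⟩ : ∃ P : Finset ℕ, P = (Fintype.piFinset fun _ : Fin k => A).image fun f => ∏ i, f i := ⟨_, rfl⟩
    rw [← hPd] at hP ⊢
    have hPpos : (0 : ℝ) < P.card := by
      by_contra h
      push Not at h
      have h1 : (P.card : ℝ) = 0 := le_antisymm h (Nat.cast_nonneg _)
      rw [h1, mul_zero] at hP
      have : 0 < (A.card : ℝ) ^ k := pow_pos hApos k
      linarith
    have h1 := Real.log_le_log (pow_pos hApos k) hP
    have hKp : (0 : ℝ) < (K' : ℝ) ^ Fintype.card J := by positivity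
    have hιp : (0 : ℝ) < (Fintype.card ι : ℝ) ^ k := by positivity
    rw [Real.log_mul (by positivity) hPpos.ne', Real.log_mul (by positivity) (Real.exp_pos _).ne', Real.log_exp,
      Real.log_mul (by positivity) hKp.ne', Real.log_mul (by norm_num) hιp.ne', Real.log_pow, Real.log_pow,
      Real.log_pow, ← hH] at h1
    have h2 : 2 * (k : ℝ) ^ 2 * M1 * τ ≤ e1 / 2 * H := by
      calc 2 * (k : ℝ) ^ 2 * M1 * τ ≤ 2 * (k : ℝ) ^ 2 * M1 * (θ * H) := by gcongr
        _ = (2 * k ^ 2 * M1 * θ) * H := by ring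
        _ = _ := by rw [hθM]
    have h3 : (k : ℝ) * Real.log (Fintype.card ι) + Fintype.card J * Real.log K' ≤ Fintype.card J * Lk := by
      rw [hLk]
      have := mul_le_mul_of_nonneg_left hlι (by positivity : (0 : ℝ) ≤ k)
      linarith
    have h4 : Real.log 2 + Lk ≤ max (max (Real.log 2 + Lk) 1) Cd := le_max_of_le_left (le_max_left _ _)
    have h5 : 0 ≤ e1 * H := by positivity
    linarith
  · right
    push Not at hcase
    intro B hB
    have hBpos : (0 : ℝ) < B.card := by exact_mod_cast hB.card_pos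
    have hlB : 0 ≤ Real.log (B.card : ℝ) := Real.log_natCast_nonneg _
    by_cases hH1 : H < 1
    · have hAB : Real.log (B.card : ℝ) ≤ Real.log (((A.image fun a : ℕ => (a : ℤ)) + B).card : ℝ) := by
        apply Real.log_le_log hBpos
        have := Finset.card_le_card_add_left (s := A.image fun a : ℕ => (a : ℤ)) (t := B) (hne.image _)
        exact_mod_cast this
      have h4 : (1 : ℝ) ≤ max (max (Real.log 2 + Lk) 1) Cd := le_max_of_le_left (le_max_right _ _)
      have h5 : (1 - e1) * (H + Real.log B.card) ≤ 1 * (H + Real.log B.card) :=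
        mul_le_mul_of_nonneg_right (by linarith) (by linarith)
      linarith
    · push Not at hH1
      have hH0' : 0 < H := by linarith
      have hτ0 : 0 < τ := (by positivity : (0 : ℝ) < θ * H).trans hcase
      have hJ3 : (Fintype.card J : ℝ) ≤ 3 * H := by
        refine hJ.trans ?_
        have : 2 * H / M ≤ 2 * H := div_le_self (by positivity) hM1
        linarith
      obtain ⟨b, hb1, hb2, hb3⟩ := exists_box m T hm0 hmZ hτ0 hApos (b0 := 3 * H) (fun b => by
        rw [hT]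
        refine le_trans ?_ hJ3
        show (((Ja.filter fun j => 2 ≤ (W b j).card).card : ℕ) : ℝ) ≤ _
        exact_mod_cast Finset.card_le_univ (Ja.filter fun j => 2 ≤ (W b j).card)) (by positivity) hτA
      have hmb : m b = ∏ j, ((W b j).card : ℝ) := by rw [hm]
      have hWne : ∀ j, (W b j).Nonempty := by
        intro j
        rw [Finset.nonempty_iff_ne_empty]
        intro h0
        rw [hmb, Finset.prod_eq_zero (Finset.mem_univ j) (by rw [h0]; simp)] at hb3
        exact lt_irrefl _ hb3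
      have hlm : Real.log (m b) = ∑ j, Real.log (W b j).card := by
        rw [hmb, Real.log_prod]
        intro j _
        exact_mod_cast (hWne j).card_pos.ne'
      have hlow : (1 - e1 / 4) * H - C0 ≤ ∑ j, Real.log (W b j).card := by
        rw [← hlm]
        have h1 : θ / 6 * A.card / Fintype.card ι ≤ m b :=
          (num3 hH0' hι0 hApos hcase.le).trans hb2
        have hθ6 : 0 < θ / 6 := by linarith
        have h2 := Real.log_le_log (div_pos (mul_pos hθ6 hApos) hι0) h1
        rw [Real.log_div (mul_pos hθ6 hApos).ne' hι0.ne', Real.log_mul hθ6.ne' hApos.ne', ← hH] at h2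
        have h3 := neg_abs_le (Real.log (θ / 6))
        have h4 : (Fintype.card J : ℝ) * Real.log κ ≤ e1 / 4 * H + Real.log κ :=
          num1 hM0 hJ hlκ hH0 (by linarith)
        rw [hC0]
        linarith
      have hfin := hCd J (W b) hWne (hpos b) (fun j j' hjj x hx y hy => hco b b j j' hjj x hx y hy) A (hmem b)
        (by
          rw [← hH]
          have h1 : T b ≤ ((univ.filter fun j => 2 ≤ (W b j).card).card : ℝ) := by
            rw [hT]
            show (((Ja.filter fun j => 2 ≤ (W b j).card).card : ℕ) : ℝ) ≤ _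
            exact_mod_cast Finset.card_le_card (Finset.filter_subset_filter (fun j => 2 ≤ (W b j).card)
              (Finset.subset_univ Ja))
          refine le_trans ?_ h1
          refine le_trans ?_ hb1
          linarith)
        (by rw [← hH]; exact hlow) B hB
      rw [← hH] at hfin
      have h4 : Cd ≤ max (max (Real.log 2 + Lk) 1) Cd := le_max_right _ _
      have h5 : (1 - 4 * (e1 / 4)) = 1 - e1 := by ring
      rw [h5] at hfin
      linarith

end FINS

open FINS in
theorem fin (hdet : T_DET) (hdec : T_DEC) (hpr : T_PR) (hdp : T_DP) : T_FIN := by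
  intro k hk w K ε hε
  obtain ⟨e1, he0, he1, hfin⟩ := Pool.Agent.T2h42.Lat.to_final k hk ε hε
  have hk1 : (1 : ℝ) ≤ k := by exact_mod_cast hk
  obtain ⟨C, hC, hd⟩ := dich hdec hpr hdp k K w hk he0 he1
  obtain ⟨κ, hκ⟩ : ∃ κ : ℝ, κ = Fintype.card (Finset (Fin w)) := ⟨_, rfl⟩
  have hκ1 : 1 ≤ κ := by
    rw [hκ]
    exact_mod_cast Fintype.card_pos_iff.2 ⟨(∅ : Finset (Fin w))⟩
  have hlκ : 0 ≤ Real.log κ := Real.log_nonneg hκ1
  obtain ⟨c, hc, hfc⟩ := hfin (C + k * Real.log κ) (by positivity)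
  refine ⟨c, hc, fun L F hF i hne => hfc (F i) hne ?_⟩
  obtain ⟨P, hOk, _, hval⟩ := hdet w k K L F hF
  obtain ⟨c₀, hc₀, hcard⟩ := exists_class _ P.val (F i) (hval i) hne
  rw [← hκ] at hcard
  have hFpos : (0 : ℝ) < (F i).card := by exact_mod_cast hne.card_pos
  have hsub : P.val c₀ ⊆ F i := by
    rw [hval i]
    exact Finset.subset_biUnion_of_mem P.val hc₀
  have hApos : (0 : ℝ) < (P.val c₀).card := by
    by_contra h
    push Not at h
    have h1 : ((P.val c₀).card : ℝ) = 0 := le_antisymm h (by positivity)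
    rw [h1, mul_zero] at hcard
    linarith
  have hAne : (P.val c₀).Nonempty := by
    rw [← Finset.card_pos]
    exact_mod_cast hApos
  have hlog : Real.log (F i).card ≤ Real.log κ + Real.log (P.val c₀).card := by
    rw [← Real.log_mul (by positivity) hApos.ne']
    exact Real.log_le_log hFpos hcard
  have hlA : 0 ≤ Real.log ((P.val c₀).card : ℝ) := Real.log_natCast_nonneg _
  rcases hd P hOk c₀ hAne with h | h
  · left
    have h1 : Real.log (((Fintype.piFinset fun _ : Fin k => P.val c₀).image fun f => ∏ i, f i).card : ℝ) ≤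
        Real.log (((Fintype.piFinset fun _ : Fin k => F i).image fun f => ∏ i, f i).card : ℝ) := by
      apply Real.log_le_log
      · have : ((Fintype.piFinset fun _ : Fin k => P.val c₀).image fun f => ∏ i, f i).Nonempty :=
          Finset.Nonempty.image (Fintype.piFinset_nonempty.2 fun _ => hAne) _
        exact_mod_cast this.card_pos
      · exact_mod_cast Finset.card_le_card (Finset.image_subset_image fun f hf => by
          rw [Fintype.mem_piFinset] at hf ⊢
          exact fun i => hsub (hf i))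
    have h2 : ((k : ℝ) - e1) * Real.log (F i).card ≤ (k - e1) * (Real.log κ + Real.log (P.val c₀).card) :=
      mul_le_mul_of_nonneg_left hlog (by linarith)
    have h3 : ((k : ℝ) - e1) * Real.log κ ≤ k * Real.log κ := mul_le_mul_of_nonneg_right (by linarith) hlκ
    linarith
  · right
    intro B hB
    have h1 : Real.log ((((P.val c₀).image fun a : ℕ => (a : ℤ)) + B).card : ℝ) ≤
        Real.log ((((F i).image fun a : ℕ => (a : ℤ)) + B).card : ℝ) := by
      apply Real.log_le_log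
      · have : (((P.val c₀).image fun a : ℕ => (a : ℤ)) + B).Nonempty := (hAne.image _).add hB
        exact_mod_cast this.card_pos
      · exact_mod_cast Finset.card_le_card (Finset.add_subset_add_right (Finset.image_subset_image hsub))
    have h2 := h B hB
    have hlB : 0 ≤ Real.log (B.card : ℝ) := Real.log_natCast_nonneg _
    have h3 : (1 - e1) * (Real.log (F i).card + Real.log B.card) ≤
        (1 - e1) * (Real.log κ + Real.log (P.val c₀).card + Real.log B.card) :=
      mul_le_mul_of_nonneg_left (by linarith) (by linarith)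
    have h4 : (1 - e1) * Real.log κ ≤ k * Real.log κ := mul_le_mul_of_nonneg_right (by linarith) hlκ
    linarith

end Pool.Agent.T4h92.BW
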