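import Pool.Agent.T4h92.BW.Stm

/-!
# Many products
-/

set_option autoImplicit false

namespace Pool.Agent.T4h92.BW

open Finset
open scoped Classical Pointwise

namespace PRS

/-- the ambiguity of the factors -/
noncomputable def ambj {k : ℕ} (V : Fin k → Finset ℕ) : ℝ :=
  ∑ i, ∑ i2, if i ≠ i2 ∧ 2 ≤ (V i2).card then Real.log (V i).card else 0

theorem term_nonneg {k : ℕ} (V : Fin k → Finset ℕ) (i i2 : Fin k) :
    0 ≤ (if i ≠ i2 ∧ 2 ≤ (V i2).card then Real.log (V i).card else 0) := by
  split_ifs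
  · exact Real.log_natCast_nonneg _
  · exact le_rfl

theorem ambj_nonneg {k : ℕ} (V : Fin k → Finset ℕ) : 0 ≤ ambj V :=
  Finset.sum_nonneg fun i _ => Finset.sum_nonneg fun i2 _ => term_nonneg V i i2

theorem fib_j {k : ℕ} (V : Fin k → Finset ℕ) (hV : ∀ i, ∀ x ∈ V i, 0 < x) (u : ℕ) :
    ((((Fintype.piFinset V).filter fun f => ∏ i, f i = u).card : ℕ) : ℝ) ≤ Real.exp (ambj V) := by
  by_cases hcase : ∃ i i', i ≠ i' ∧ 2 ≤ (V i).card ∧ 2 ≤ (V i').card
  · obtain ⟨a, b, hab, ha, hb⟩ := hcase
    have h1 : ((((Fintype.piFinset V).filter fun f => ∏ i, f i = u).card : ℕ) : ℝ) ≤ ∏ i, ((V i).card : ℝ) := by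
      have : ((Fintype.piFinset V).filter fun f => ∏ i, f i = u).card ≤ ∏ i, (V i).card := by
        rw [← Fintype.card_piFinset]
        exact Finset.card_filter_le _ _
      exact_mod_cast this
    refine h1.trans ?_
    by_cases h0 : ∃ i, (V i).card = 0
    · obtain ⟨i, hi⟩ := h0
      rw [Finset.prod_eq_zero (Finset.mem_univ i) (by rw [hi]; simp)]
      exact (Real.exp_pos _).le
    · push Not at h0
      have h2 : ∏ i, ((V i).card : ℝ) = Real.exp (∑ i, Real.log (V i).card) := by
        rw [Real.exp_sum]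
        refine Finset.prod_congr rfl fun i _ => ?_
        rw [Real.exp_log]
        exact_mod_cast Nat.pos_of_ne_zero (h0 i)
      rw [h2]
      apply Real.exp_le_exp.2
      refine Finset.sum_le_sum fun i _ => ?_
      by_cases hi : 2 ≤ (V i).card
      · obtain ⟨c, hc1, hc2⟩ : ∃ c, i ≠ c ∧ 2 ≤ (V c).card := by
          by_cases hia : i = a
          · exact ⟨b, by rw [hia]; exact hab, hb⟩
          · exact ⟨a, hia, ha⟩
        have h3 := Finset.single_le_sum (f := fun i2 => if i ≠ i2 ∧ 2 ≤ (V i2).card then Real.log (V i).card else 0)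
          (fun i2 _ => term_nonneg V i i2) (Finset.mem_univ c)
        simp only [if_pos (show i ≠ c ∧ 2 ≤ (V c).card from ⟨hc1, hc2⟩)] at h3
        exact h3
      · have h3 : (V i).card = 1 := by
          have := h0 i
          omega
        rw [h3]
        simp only [Nat.cast_one, Real.log_one]
        refine Finset.sum_nonneg fun i2 _ => ?_
        split_ifs <;> exact le_rfl
  · push Not at hcase
    have h1 : ((Fintype.piFinset V).filter fun f => ∏ i, f i = u).card ≤ 1 := by
      rw [Finset.card_le_one]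
      intro f hf g hg
      by_contra hne
      obtain ⟨i, hi⟩ := Function.ne_iff.1 hne
      obtain ⟨hf1, hf2⟩ := Finset.mem_filter.1 hf
      obtain ⟨hg1, hg2⟩ := Finset.mem_filter.1 hg
      rw [Fintype.mem_piFinset] at hf1 hg1
      have two : ∀ l, f l ≠ g l → 2 ≤ (V l).card := fun l hl =>
        Finset.one_lt_card.2 ⟨f l, hf1 l, g l, hg1 l, hl⟩
      have hother : ∀ l ∈ Finset.univ.erase i, f l = g l := by
        intro l hl
        by_contra hl'
        exact absurd (two l hl') (not_le.2 (hcase i l (Finset.ne_of_mem_erase hl).symm (two i hi)))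
      have h2 : f i * ∏ l ∈ Finset.univ.erase i, f l = g i * ∏ l ∈ Finset.univ.erase i, g l := by
        rw [Finset.mul_prod_erase _ _ (Finset.mem_univ i), Finset.mul_prod_erase _ _ (Finset.mem_univ i), hf2, hg2]
      rw [Finset.prod_congr rfl hother] at h2
      have h3 : 0 < ∏ l ∈ Finset.univ.erase i, g l := Finset.prod_pos fun l _ => hV l _ (hg1 l)
      exact hi (Nat.eq_of_mul_eq_mul_right h3 h2)
    calc ((((Fintype.piFinset V).filter fun f => ∏ i, f i = u).card : ℕ) : ℝ) ≤ 1 := by exact_mod_cast h1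
      _ ≤ Real.exp (ambj V) := Real.one_le_exp (ambj_nonneg V)

section main

variable {k : ℕ} {J ι : Type} [Fintype J] [Fintype ι]

/-- the components are determined by the product -/
theorem comp_eq {W : ι → J → Finset ℕ}
    (hco : ∀ β β' j j', j ≠ j' → ∀ x ∈ W β j, ∀ y ∈ W β' j', Nat.Coprime x y) (bb cc : Fin k → ι)
    (x y : Fin k → J → ℕ) (hx : ∀ i j, x i j ∈ W (bb i) j) (hy : ∀ i j, y i j ∈ W (cc i) j)
    (h : ∏ i, ∏ j, x i j = ∏ i, ∏ j, y i j) (j : J) : ∏ i, x i j ∣ ∏ i, y i j := by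
  have h1 : ∏ j, ∏ i, x i j = ∏ j, ∏ i, y i j := by
    rw [Finset.prod_comm, h, Finset.prod_comm]
  have h2 : ∏ i, x i j ∣ ∏ j, ∏ i, y i j := by
    rw [← h1]
    exact Finset.dvd_prod_of_mem (fun j => ∏ i, x i j) (Finset.mem_univ j)
  rw [← Finset.mul_prod_erase _ _ (Finset.mem_univ j)] at h2
  refine (Nat.Coprime.dvd_mul_right ?_).1 h2
  refine Nat.Coprime.prod_right fun j' hj' => ?_
  refine Nat.Coprime.prod_left fun i _ => Nat.Coprime.prod_right fun i' _ => ?_
  exact hco _ _ j j' (Finset.ne_of_mem_erase hj').symm _ (hx i j) _ (hy i' j')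

theorem fib {K : ℕ} (hK : 1 ≤ K) {W : ι → J → Finset ℕ} {Ja : Finset J}
    (hpos : ∀ β j, ∀ x ∈ W β j, 0 < x)
    (hco : ∀ β β' j j', j ≠ j' → ∀ x ∈ W β j, ∀ y ∈ W β' j', Nat.Coprime x y)
    (hadm : ∀ j, j ∉ Ja → ∀ u : ℕ, ((Fintype.piFinset fun _ : Fin k => univ.biUnion fun β => W β j).filter
      fun f => ∏ i, f i = u).card ≤ K) (bb : Fin k → ι) (u : ℕ) :
    ((((Fintype.piFinset fun i : Fin k => Fintype.piFinset (W (bb i))).filter
      fun x => ∏ i, ∏ j, x i j = u).card : ℕ) : ℝ) ≤
      (K : ℝ) ^ Fintype.card J * Real.exp (∑ j ∈ Ja, ambj fun i => W (bb i) j) := by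
  have hK1 : (1 : ℝ) ≤ K := by exact_mod_cast hK
  have hr : 0 ≤ (K : ℝ) ^ Fintype.card J * Real.exp (∑ j ∈ Ja, ambj fun i => W (bb i) j) := by positivity
  by_cases hne : ((Fintype.piFinset fun i : Fin k => Fintype.piFinset (W (bb i))).filter
      fun x => ∏ i, ∏ j, x i j = u).Nonempty
  · obtain ⟨y, hy⟩ := hne
    obtain ⟨hy1, hy2⟩ := Finset.mem_filter.1 hy
    have hy3 : ∀ i j, y i j ∈ W (bb i) j := fun i j =>
      Fintype.mem_piFinset.1 (Fintype.mem_piFinset.1 hy1 i) j
    have h1 : ((Fintype.piFinset fun i : Fin k => Fintype.piFinset (W (bb i))).filter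
        fun x => ∏ i, ∏ j, x i j = u).card ≤
        (Fintype.piFinset fun j : J => (Fintype.piFinset fun i : Fin k => W (bb i) j).filter
          fun f => ∏ i, f i = ∏ i, y i j).card := by
      refine Finset.card_le_card_of_injOn (fun x j i => x i j) ?_ ?_
      · intro x hx
        obtain ⟨hx1, hx2⟩ := Finset.mem_filter.1 (Finset.mem_coe.1 hx)
        have hx3 : ∀ i j, x i j ∈ W (bb i) j := fun i j =>
          Fintype.mem_piFinset.1 (Fintype.mem_piFinset.1 hx1 i) j
        rw [Finset.mem_coe, Fintype.mem_piFinset]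
        intro j
        rw [Finset.mem_filter, Fintype.mem_piFinset]
        refine ⟨fun i => hx3 i j, Nat.dvd_antisymm ?_ ?_⟩
        · exact comp_eq hco bb bb x y hx3 hy3 (hx2.trans hy2.symm) j
        · exact comp_eq hco bb bb y x hy3 hx3 (hy2.trans hx2.symm) j
      · intro x _ z _ hxz
        funext i j
        exact congrFun (congrFun hxz j) i
    rw [Fintype.card_piFinset] at h1
    have h2 : ((((Fintype.piFinset fun i : Fin k => Fintype.piFinset (W (bb i))).filter
        fun x => ∏ i, ∏ j, x i j = u).card : ℕ) : ℝ) ≤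
        ∏ j : J, ((((Fintype.piFinset fun i : Fin k => W (bb i) j).filter
          fun f => ∏ i, f i = ∏ i, y i j).card : ℕ) : ℝ) := by exact_mod_cast h1
    refine h2.trans ?_
    have h3 : ∀ j : J, ((((Fintype.piFinset fun i : Fin k => W (bb i) j).filter
          fun f => ∏ i, f i = ∏ i, y i j).card : ℕ) : ℝ) ≤
        K * Real.exp (if j ∈ Ja then ambj (fun i => W (bb i) j) else 0) := by
      intro j
      by_cases hj : j ∈ Ja
      · rw [if_pos hj]
        refine (fib_j (fun i => W (bb i) j) (fun i => hpos _ _) _).trans ?_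
        exact le_mul_of_one_le_left (Real.exp_pos _).le hK1
      · rw [if_neg hj, Real.exp_zero, mul_one]
        have h4 := hadm j hj (∏ i, y i j)
        have h5 : ((Fintype.piFinset fun i : Fin k => W (bb i) j).filter
          fun f => ∏ i, f i = ∏ i, y i j).card ≤ K := by
          refine (Finset.card_le_card (Finset.filter_subset_filter _ ?_)).trans h4
          intro f hf
          rw [Fintype.mem_piFinset] at hf ⊢
          exact fun i => Finset.mem_biUnion.2 ⟨bb i, Finset.mem_univ _, hf i⟩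
        exact_mod_cast h5
    refine (Finset.prod_le_prod (fun j _ => by positivity) fun j _ => h3 j).trans (le_of_eq ?_)
    rw [Finset.prod_mul_distrib, Finset.prod_const, Finset.card_univ, ← Real.exp_sum, Finset.sum_ite_mem,
      Finset.univ_inter]
  · rw [Finset.not_nonempty_iff_eq_empty] at hne
    rw [hne]
    simpa using hr

/-- the mean of the ambiguity for one pair and one place -/
theorem mean_pair (m : ι → ℝ) (hm : ∀ b, 0 ≤ m b) {Z : ℝ} (hZ : 0 < Z) (hmZ : ∑ b, m b = Z)
    (p l : ι → ℝ) (hp : ∀ b, 0 ≤ p b) (hl : ∀ b, 0 ≤ l b) {M : ℝ} (hM : 0 ≤ M) (hlM : ∑ b, m b * l b ≤ M * Z)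
    (i i2 : Fin k) (hi : i ≠ i2) :
    ∑ bb : Fin k → ι, (∏ a, m (bb a)) * (p (bb i2) * l (bb i)) ≤ Z ^ k * (M * ((∑ b, m b * p b) / Z)) := by
  have h1 : ∀ bb : Fin k → ι, (∏ a, m (bb a)) * (p (bb i2) * l (bb i)) =
      ∏ a, (m (bb a) * ((if a = i then l (bb a) else 1) * (if a = i2 then p (bb a) else 1))) := by
    intro bb
    rw [Finset.prod_mul_distrib, Finset.prod_mul_distrib]
    congr 1
    rw [Finset.prod_ite_eq' Finset.univ i, Finset.prod_ite_eq' Finset.univ i2, if_pos (Finset.mem_univ _),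
      if_pos (Finset.mem_univ _), mul_comm]
  simp only [h1]
  have hps : ∑ bb : Fin k → ι, ∏ a, (m (bb a) * ((if a = i then l (bb a) else 1) * (if a = i2 then p (bb a) else 1))) =
      ∏ a : Fin k, ∑ b, m b * ((if a = i then l b else 1) * (if a = i2 then p b else 1)) := by
    rw [← Fintype.piFinset_univ]
    exact Finset.sum_prod_piFinset Finset.univ
      (fun (a : Fin k) (b : ι) => m b * ((if a = i then l b else 1) * (if a = i2 then p b else 1)))
  rw [hps]
  have hT : 0 ≤ ∑ b, m b * p b := Finset.sum_nonneg fun b _ => mul_nonneg (hm b) (hp b)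
  have h2 : ∀ a : Fin k, ∑ b, m b * ((if a = i then l b else 1) * (if a = i2 then p b else 1)) ≤
      Z * ((if a = i then M else 1) * (if a = i2 then (∑ b, m b * p b) / Z else 1)) := by
    intro a
    by_cases ha : a = i
    · have ha2 : a ≠ i2 := fun h => hi (ha.symm.trans h)
      simp only [if_pos ha, if_neg ha2, mul_one]
      linarith
    · by_cases ha2 : a = i2
      · simp only [if_neg ha, if_pos ha2, one_mul]
        rw [mul_div_cancel₀ _ hZ.ne']
      · simp only [if_neg ha, if_neg ha2, mul_one]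
        exact hmZ.le
  refine (Finset.prod_le_prod (fun a _ => Finset.sum_nonneg fun b _ => ?_) fun a _ => h2 a).trans (le_of_eq ?_)
  · refine mul_nonneg (hm b) (mul_nonneg ?_ ?_)
    · split_ifs
      · exact hl b
      · exact zero_le_one
    · split_ifs
      · exact hp b
      · exact zero_le_one
  · rw [Finset.prod_mul_distrib, Finset.prod_mul_distrib, Finset.prod_const, Finset.card_univ, Fintype.card_fin,
      Finset.prod_ite_eq' Finset.univ i, Finset.prod_ite_eq' Finset.univ i2, if_pos (Finset.mem_univ _),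
      if_pos (Finset.mem_univ _)]

end main

end PRS

open PRS in
theorem pr : T_PR := by
  intro k K hk hK A hA J ι _ _ W Ja hpos hco hmem hcard M τ hM hlog hadm hτ
  obtain ⟨Z, hZ⟩ : ∃ Z : ℝ, Z = (A.card : ℝ) := ⟨_, rfl⟩
  have hZ0 : 0 < Z := by rw [hZ]; exact_mod_cast hA.card_pos
  obtain ⟨m, hm⟩ : ∃ m : ι → ℝ, m = fun β => ∏ j, ((W β j).card : ℝ) := ⟨_, rfl⟩
  have hm0 : ∀ b, 0 ≤ m b := fun b => by rw [hm]; exact Finset.prod_nonneg fun j _ => by positivity
  have hmZ : ∑ b, m b = Z := by rw [hm, hZ, hcard]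
  obtain ⟨amb, hamb⟩ : ∃ amb : (Fin k → ι) → ℝ, amb = fun bb => ∑ j ∈ Ja, ambj fun i => W (bb i) j := ⟨_, rfl⟩
  have hamb0 : ∀ bb, 0 ≤ amb bb := fun bb => by rw [hamb]; exact Finset.sum_nonneg fun j _ => ambj_nonneg _
  obtain ⟨T, hT⟩ : ∃ T : J → ℝ, T = fun j => ∑ b, m b * (if 2 ≤ (W b j).card then 1 else 0) := ⟨_, rfl⟩
  have hTn : ∀ j, 0 ≤ T j := fun j => by
    rw [hT]
    refine Finset.sum_nonneg fun b _ => mul_nonneg (hm0 b) ?_
    split_ifs <;> norm_num
  have hTs : ∑ j ∈ Ja, T j ≤ τ * Z := by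
    rw [hZ]
    refine le_trans (le_of_eq ?_) hτ
    rw [hT, Finset.sum_comm]
    refine Finset.sum_congr rfl fun b _ => ?_
    rw [← Finset.mul_sum, Finset.sum_boole, hm]
  have hτ0 : 0 ≤ τ := by
    have : 0 ≤ τ * Z := (Finset.sum_nonneg fun j _ => hTn j).trans hTs
    exact nonneg_of_mul_nonneg_left this hZ0
  obtain ⟨a0, ha0⟩ : ∃ a0 : ℝ, a0 = 2 * k ^ 2 * M * τ := ⟨_, rfl⟩
  have ha00 : 0 ≤ a0 := by rw [ha0]; positivity
  -- the total weight
  have htot : ∑ bb : Fin k → ι, ∏ a, m (bb a) = Z ^ k := by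
    rw [← hmZ, Finset.sum_pow', Fintype.piFinset_univ]
  have hw0 : ∀ bb : Fin k → ι, 0 ≤ ∏ a, m (bb a) := fun bb => Finset.prod_nonneg fun a _ => hm0 _
  -- the mean
  have hmean : ∑ bb : Fin k → ι, (∏ a, m (bb a)) * amb bb ≤ k ^ 2 * M * τ * Z ^ k := by
    have h1 : ∑ bb : Fin k → ι, (∏ a, m (bb a)) * amb bb = ∑ j ∈ Ja, ∑ i : Fin k, ∑ i2 : Fin k,
        ∑ bb : Fin k → ι, (∏ a, m (bb a)) *
          (if i ≠ i2 ∧ 2 ≤ (W (bb i2) j).card then Real.log (W (bb i) j).card else 0) := by
      rw [hamb]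
      simp only [ambj, Finset.mul_sum]
      rw [Finset.sum_comm]
      refine Finset.sum_congr rfl fun j _ => ?_
      rw [Finset.sum_comm]
      refine Finset.sum_congr rfl fun i _ => ?_
      rw [Finset.sum_comm]
    rw [h1]
    have h2 : ∀ j ∈ Ja, ∀ i i2 : Fin k, ∑ bb : Fin k → ι, (∏ a, m (bb a)) *
          (if i ≠ i2 ∧ 2 ≤ (W (bb i2) j).card then Real.log (W (bb i) j).card else 0) ≤
          Z ^ k * (M * (T j / Z)) := by
      intro j hj i i2
      by_cases hi : i = i2
      · have h3 : ∀ bb : Fin k → ι, (∏ a, m (bb a)) *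
          (if i ≠ i2 ∧ 2 ≤ (W (bb i2) j).card then Real.log (W (bb i) j).card else 0) = 0 := fun bb => by
          rw [if_neg (fun h => h.1 hi), mul_zero]
        simp only [h3, Finset.sum_const_zero]
        have := hTn j
        positivity
      · have h3 := mean_pair m hm0 hZ0 hmZ (fun b => if 2 ≤ (W b j).card then (1 : ℝ) else 0)
          (fun b => Real.log (W b j).card) (fun b => by split_ifs <;> norm_num)
          (fun b => Real.log_natCast_nonneg _) hM (by rw [hm, hZ]; exact hlog j hj) i i2 hi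
        have h4 : T j = ∑ b, m b * (if 2 ≤ (W b j).card then (1 : ℝ) else 0) := by rw [hT]
        rw [h4]
        refine le_trans (le_of_eq ?_) h3
        refine Finset.sum_congr rfl fun bb _ => ?_
        congr 1
        by_cases hc : 2 ≤ (W (bb i2) j).card
        · rw [if_pos ⟨hi, hc⟩, if_pos hc, one_mul]
        · rw [if_neg (fun h => hc h.2), if_neg hc, zero_mul]
    calc ∑ j ∈ Ja, ∑ i : Fin k, ∑ i2 : Fin k, ∑ bb : Fin k → ι, (∏ a, m (bb a)) *
          (if i ≠ i2 ∧ 2 ≤ (W (bb i2) j).card then Real.log (W (bb i) j).card else 0)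
        ≤ ∑ j ∈ Ja, ∑ i : Fin k, ∑ i2 : Fin k, Z ^ k * (M * (T j / Z)) :=
          Finset.sum_le_sum fun j hj => Finset.sum_le_sum fun i _ => Finset.sum_le_sum fun i2 _ => h2 j hj i i2
      _ = k ^ 2 * M * Z ^ k * ((∑ j ∈ Ja, T j) / Z) := by
          simp only [Finset.sum_const, Finset.card_univ, Fintype.card_fin, nsmul_eq_mul]
          rw [Finset.sum_div, Finset.mul_sum]
          refine Finset.sum_congr rfl fun j _ => ?_
          ring
      _ ≤ k ^ 2 * M * Z ^ k * τ := by
          apply mul_le_mul_of_nonneg_left _ (by positivity)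
          rw [div_le_iff₀ hZ0]
          exact hTs
      _ = _ := by ring
  -- the good tuples
  have hgood : Z ^ k / 2 ≤ ∑ bb ∈ (Finset.univ : Finset (Fin k → ι)).filter (fun bb => amb bb ≤ a0), ∏ a, m (bb a) := by
    have h1 := Finset.sum_filter_add_sum_filter_not (Finset.univ : Finset (Fin k → ι)) (fun bb => amb bb ≤ a0)
      (fun bb => ∏ a, m (bb a))
    rw [htot] at h1
    have h2 : ∑ bb ∈ (Finset.univ : Finset (Fin k → ι)).filter (fun bb => ¬ amb bb ≤ a0), ∏ a, m (bb a) ≤ Z ^ k / 2 := by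
      rcases ha00.eq_or_lt with h0 | h0
      · have h3 : k ^ 2 * M * τ * Z ^ k = 0 := by
          have : (k : ℝ) ^ 2 * M * τ = 0 := by rw [ha0] at h0; linarith
          rw [this, zero_mul]
        rw [h3] at hmean
        have h4 : ∀ bb : Fin k → ι, (∏ a, m (bb a)) * amb bb = 0 := by
          have h5 : ∑ bb : Fin k → ι, (∏ a, m (bb a)) * amb bb = 0 :=
            le_antisymm hmean (Finset.sum_nonneg fun bb _ => mul_nonneg (hw0 bb) (hamb0 bb))
          intro bb
          exact (Finset.sum_eq_zero_iff_of_nonneg fun bb _ => mul_nonneg (hw0 bb) (hamb0 bb)).1 h5 bb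
            (Finset.mem_univ bb)
        rw [Finset.sum_eq_zero]
        · positivity
        · intro bb hbb
          have h5 := (Finset.mem_filter.1 hbb).2
          rw [← h0] at h5
          push Not at h5
          exact (mul_eq_zero.1 (h4 bb)).resolve_right h5.ne'
      · have h3 : a0 * ∑ bb ∈ (Finset.univ : Finset (Fin k → ι)).filter (fun bb => ¬ amb bb ≤ a0), ∏ a, m (bb a) ≤
            a0 * (Z ^ k / 2) := by
          calc a0 * ∑ bb ∈ (Finset.univ : Finset (Fin k → ι)).filter (fun bb => ¬ amb bb ≤ a0), ∏ a, m (bb a)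
              ≤ ∑ bb ∈ (Finset.univ : Finset (Fin k → ι)).filter (fun bb => ¬ amb bb ≤ a0),
                  (∏ a, m (bb a)) * amb bb := by
                rw [Finset.mul_sum]
                refine Finset.sum_le_sum fun bb hbb => ?_
                rw [mul_comm]
                have := (Finset.mem_filter.1 hbb).2
                push Not at this
                exact mul_le_mul_of_nonneg_left this.le (hw0 bb)
            _ ≤ ∑ bb : Fin k → ι, (∏ a, m (bb a)) * amb bb :=
                Finset.sum_le_sum_of_subset_of_nonneg (Finset.filter_subset _ _)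
                  fun bb _ _ => mul_nonneg (hw0 bb) (hamb0 bb)
            _ ≤ k ^ 2 * M * τ * Z ^ k := hmean
            _ = a0 * (Z ^ k / 2) := by rw [ha0]; ring
        exact le_of_mul_le_mul_left h3 h0
    linarith
  -- counting
  obtain ⟨P, hP⟩ : ∃ P : Finset ℕ, P = (Fintype.piFinset fun _ : Fin k => A).image fun f => ∏ i, f i := ⟨_, rfl⟩
  have hcount : ∀ bb : Fin k → ι, ∏ a, m (bb a) ≤ P.card * ((K : ℝ) ^ Fintype.card J * Real.exp (amb bb)) := by
    intro bb
    have h1 : ∏ a, m (bb a) =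
        (((Fintype.piFinset fun i : Fin k => Fintype.piFinset (W (bb i))).card : ℕ) : ℝ) := by
      rw [Fintype.card_piFinset, hm]
      push_cast
      refine Finset.prod_congr rfl fun i _ => ?_
      rw [Fintype.card_piFinset]
      push_cast
      rfl
    have h2 : ∀ x ∈ (Fintype.piFinset fun i : Fin k => Fintype.piFinset (W (bb i))), ∏ i, ∏ j, x i j ∈ P := by
      intro x hx
      rw [hP]
      refine Finset.mem_image.2 ⟨fun i => ∏ j, x i j, ?_, rfl⟩
      rw [Fintype.mem_piFinset]
      exact fun i => hmem (bb i) (x i) (Fintype.mem_piFinset.1 hx i)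
    rw [h1, Finset.card_eq_sum_card_fiberwise h2]
    push_cast
    calc ∑ u ∈ P, ((((Fintype.piFinset fun i : Fin k => Fintype.piFinset (W (bb i))).filter
          fun x => ∏ i, ∏ j, x i j = u).card : ℕ) : ℝ)
        ≤ ∑ u ∈ P, (K : ℝ) ^ Fintype.card J * Real.exp (amb bb) := by
          refine Finset.sum_le_sum fun u _ => ?_
          rw [hamb]
          exact fib hK hpos hco hadm bb u
      _ = _ := by rw [Finset.sum_const, nsmul_eq_mul]
  rw [← hZ, ← hP, ← ha0]
  have hfin : Z ^ k / 2 ≤ (Fintype.card ι : ℝ) ^ k * (P.card * ((K : ℝ) ^ Fintype.card J * Real.exp a0)) := by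
    calc Z ^ k / 2 ≤ ∑ bb ∈ (Finset.univ : Finset (Fin k → ι)).filter (fun bb => amb bb ≤ a0), ∏ a, m (bb a) := hgood
      _ ≤ ∑ bb ∈ (Finset.univ : Finset (Fin k → ι)).filter (fun bb => amb bb ≤ a0),
          P.card * ((K : ℝ) ^ Fintype.card J * Real.exp a0) := by
          refine Finset.sum_le_sum fun bb hbb => (hcount bb).trans ?_
          have h1 := (Finset.mem_filter.1 hbb).2
          gcongr
      _ ≤ ∑ bb : Fin k → ι, P.card * ((K : ℝ) ^ Fintype.card J * Real.exp a0) :=
          Finset.sum_le_sum_of_subset_of_nonneg (Finset.filter_subset _ _) fun bb _ _ => by positivity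
      _ = _ := by
          rw [Finset.sum_const, nsmul_eq_mul, Finset.card_univ, Fintype.card_fun, Fintype.card_fin]
          push_cast
          ring
  calc Z ^ k = 2 * (Z ^ k / 2) := by ring
    _ ≤ 2 * ((Fintype.card ι : ℝ) ^ k * (P.card * ((K : ℝ) ^ Fintype.card J * Real.exp a0))) := by gcongr
    _ = _ := by ring

end Pool.Agent.T4h92.BW
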